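import Pool.Agent.Helper83.TKC.StB

/-!
# Module Avg of project TK: sums over translations and levels
-/

set_option autoImplicit false

namespace Pool.Agent.Helper85.TKC

open Pool.Agent.Helper14.CV (Homog EqC act Tl StFar StFex act_act)
open Pool.Agent.Helper28.WK (Tw evw)
open Pool.Agent.Helper93.TLE (DDE)
open Pool.Agent.Helper4.TK
open Pool.Agent.Helper83.TKC

private lemma act_sum {ι : Type} (s : Finset ι) (F : ι → ℤ → ℤ → ℂ) (a b c d : ℤ) :
    act a b c d (∑ i ∈ s, F i) = ∑ i ∈ s, act a b c d (F i) := by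
  funext x y
  simp [act, Finset.sum_apply]

private lemma eqc_sum {ι : Type} (s : Finset ι) (F H : ι → ℤ → ℤ → ℂ)
    (h : ∀ i ∈ s, EqC (F i) (H i)) : EqC (∑ i ∈ s, F i) (∑ i ∈ s, H i) := by
  classical
  induction s using Finset.induction_on with
  | empty => simp only [Finset.sum_empty]; exact EqC.refl _
  | insert a s ha ih =>
    rw [Finset.sum_insert ha, Finset.sum_insert ha]
    exact (h a (Finset.mem_insert_self _ _)).add
      (ih (fun i hi => h i (Finset.mem_insert_of_mem hi)))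

private lemma homog_sum {ι : Type} (s : Finset ι) (F : ι → ℤ → ℤ → ℂ)
    (h : ∀ i ∈ s, Homog (F i)) : Homog (∑ i ∈ s, F i) := by
  classical
  induction s using Finset.induction_on with
  | empty =>
    intro k x y _ _
    simp
  | insert a s ha ih =>
    rw [Finset.sum_insert ha]
    exact (h a (Finset.mem_insert_self _ _)).add
      (ih (fun i hi => h i (Finset.mem_insert_of_mem hi)))

/-- The residue of `x` modulo `p`. -/
private def rs (p : ℕ) (x : ℤ) : ℕ := (x % (p : ℤ)).toNat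

private lemma rs_spec (p : ℕ) (hp : p.Prime) (x : ℤ) : ∃ t : ℤ, x = (rs p x : ℤ) + p * t := by
  have hp0 : (p : ℤ) ≠ 0 := by exact_mod_cast hp.ne_zero
  refine ⟨x / p, ?_⟩
  have e1 : ((rs p x : ℕ) : ℤ) = x % p := Int.toNat_of_nonneg (Int.emod_nonneg x hp0)
  rw [e1]
  exact (Int.emod_add_mul_ediv x p).symm

private lemma rs_lt (p : ℕ) (hp : p.Prime) (x : ℤ) : rs p x < p := by
  have hp0 : (0 : ℤ) < (p : ℤ) := by exact_mod_cast hp.pos
  have e1 : ((rs p x : ℕ) : ℤ) = x % p := Int.toNat_of_nonneg (Int.emod_nonneg x hp0.ne')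
  have e2 := Int.emod_lt_of_pos x hp0
  have : ((rs p x : ℕ) : ℤ) < (p : ℤ) := by rw [e1]; exact e2
  exact_mod_cast this

private lemma reidx (p : ℕ) (hp : p.Prime) (u v : ℤ) (hu : ¬ (p : ℤ) ∣ u)
    (F : ℕ → ℤ → ℤ → ℂ) :
    ∑ i ∈ Finset.range p, F (rs p (u * (i : ℤ) + v)) = ∑ i ∈ Finset.range p, F i := by
  have hinj : Set.InjOn (fun i : ℕ => rs p (u * (i : ℤ) + v)) (Finset.range p : Set ℕ) := by
    intro a ha b hb hab
    have ha' : a < p := by simpa using ha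
    have hb' : b < p := by simpa using hb
    have hab' : rs p (u * (a : ℤ) + v) = rs p (u * (b : ℤ) + v) := hab
    obtain ⟨s, hs⟩ := rs_spec p hp (u * (a : ℤ) + v)
    obtain ⟨t, ht⟩ := rs_spec p hp (u * (b : ℤ) + v)
    rw [hab'] at hs
    have h3 : (p : ℤ) ∣ u * ((a : ℤ) - b) := ⟨s - t, by linear_combination hs - ht⟩
    have hpp : Prime (p : ℤ) := Nat.prime_iff_prime_int.1 hp
    rcases hpp.dvd_or_dvd h3 with h | h
    · exact absurd h hu
    · have h5 : (a : ℤ) ≡ b [ZMOD p] := ((Int.modEq_iff_dvd).2 h).symm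
      have h6 : a ≡ b [MOD p] := (Int.natCast_modEq_iff).1 h5
      exact Nat.ModEq.eq_of_lt_of_lt h6 ha' hb'
  have himg : (Finset.range p).image (fun i : ℕ => rs p (u * (i : ℤ) + v)) = Finset.range p := by
    refine Finset.eq_of_subset_of_card_le ?_ ?_
    · intro x hx
      obtain ⟨y, _, rfl⟩ := Finset.mem_image.1 hx
      exact Finset.mem_range.2 (rs_lt p hp _)
    · rw [Finset.card_image_of_injOn hinj]
  calc ∑ i ∈ Finset.range p, F (rs p (u * (i : ℤ) + v))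
      = ∑ j ∈ (Finset.range p).image (fun i : ℕ => rs p (u * (i : ℤ) + v)), F j :=
        (Finset.sum_image hinj).symm
    _ = ∑ i ∈ Finset.range p, F i := by rw [himg]


private lemma third (p : ℕ) (hp : p.Prime) (h2 : p ≠ 3) : ∃ h κ : ℤ, 3 * h = p * κ + 1 := by
  have h3 : ¬ 3 ∣ p := fun h =>
    h2 ((Nat.prime_dvd_prime_iff_eq Nat.prime_three hp).1 h).symm
  have h4 : p % 3 = 1 ∨ p % 3 = 2 := by omega
  rcases h4 with h4 | h4
  · obtain ⟨k, hk⟩ : ∃ k, p = 3 * k + 1 := ⟨p / 3, by omega⟩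
    exact ⟨2 * k + 1, 2, by rw [hk]; push_cast; ring⟩
  · obtain ⟨k, hk⟩ : ∃ k, p = 3 * k + 2 := ⟨p / 3, by omega⟩
    exact ⟨k + 1, 1, by rw [hk]; push_cast; ring⟩

private lemma oddp (p : ℕ) (hp : p.Prime) (h2 : p ≠ 3) (n : ℕ) : ¬ (3 : ℤ) ∣ (p : ℤ) ^ n := by
  intro h
  have h3 : (3 : ℤ) ∣ (p : ℤ) := Int.prime_three.dvd_of_dvd_pow h
  have h4 : 3 ∣ p := by exact_mod_cast h3
  exact h2 ((Nat.prime_dvd_prime_iff_eq Nat.prime_three hp).1 h4).symm

/-- Same determinant and same residues modulo three: same type. -/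
private lemma hty_mod {a b c d a' b' c' d' : ℤ} (h : KTy a b c d)
    (hD : a' * d' - b' * c' = a * d - b * c) (ha : (3 : ℤ) ∣ a' - a) (hc : (3 : ℤ) ∣ c' - c)
    (hd : (3 : ℤ) ∣ d' - d) : KTy a' b' c' d' := by
  rcases h with ⟨h1, h2⟩ | ⟨h1, h2, h3, h4⟩
  · exact Or.inl ⟨by rw [hD, h1], (dvd_iff_dvd_of_dvd_sub hc).2 h2⟩
  · exact Or.inr ⟨by rw [hD, h1], (dvd_iff_dvd_of_dvd_sub ha).2 h2,
      (dvd_iff_dvd_of_dvd_sub hc).2 h3, (dvd_iff_dvd_of_dvd_sub hd).2 h4⟩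

private lemma hty_even {a b c d : ℤ} (h : KTy a b c d) : (3 : ℤ) ∣ c := by
  rcases h with h | h
  · exact h.2
  · exact h.2.2.1

/-- The determinant is invertible modulo `p`. -/
private lemma hty_inv (p : ℕ) (hp : p.Prime) (h2p : p ≠ 3) {a b c d : ℤ} (h : KTy a b c d) :
    ∃ D' q : ℤ, (a * d - b * c) * D' = 1 + p * q := by
  rcases h with h | h
  · exact ⟨1, 0, by rw [h.1]; ring⟩
  · obtain ⟨x, κ, hx⟩ := third p hp h2p
    exact ⟨x, κ, by rw [h.1, hx]; ring⟩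

private lemma not_dvd_of_unit (p : ℕ) (hp : p.Prime) {x y z : ℤ} (h : x * y = 1 + p * z) :
    ¬ (p : ℤ) ∣ x := by
  have hpp : Prime (p : ℤ) := Nat.prime_iff_prime_int.1 hp
  rintro ⟨r, hr⟩
  apply hpp.not_unit
  refine isUnit_of_dvd_one ⟨r * y - z, ?_⟩
  rw [hr] at h
  linear_combination -h

private lemma even_cof (p : ℕ) (hp : p.Prime) (h2p : p ≠ 3) (n : ℕ) {c c0 : ℤ}
    (h : c = (p : ℤ) ^ n * c0) (hc : (3 : ℤ) ∣ c) : (3 : ℤ) ∣ c0 := by
  rw [h] at hc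
  rcases Int.prime_three.dvd_or_dvd hc with h1 | h1
  · exact absurd h1 (oddp p hp h2p n)
  · exact h1

/-- Part (b). -/
private lemma partB (p : ℕ) (hp : p.Prime) (h2p : p ≠ 3) (n : ℕ) (G : ℤ → ℤ → ℂ) (hn : 2 ≤ n)
    (hG : SymK p 0 n G) : SymK p 0 (n - 1) (sSK p n G) := by
  obtain ⟨m, rfl⟩ : ∃ m, n = m + 2 := ⟨n - 2, by omega⟩
  obtain ⟨h, κ, hh⟩ := third p hp h2p
  have e1 : m + 2 - 1 = m + 1 := by omega
  refine ⟨homog_sum _ _ (fun i _ => hG.1.act (by norm_num)), ?_⟩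
  intro a b c d hty _ hc
  obtain ⟨D', q, hq⟩ := hty_inv p hp h2p hty
  set D : ℤ := a * d - b * c with hD
  rw [e1] at hc
  obtain ⟨c0, hc0⟩ := hc
  unfold sSK
  rw [e1, act_sum]
  set k : ℤ := b * (p : ℤ) ^ m * c0 with hkd
  have hk : a * d = D + p * k := by
    rw [hkd, hD, hc0, pow_succ]; ring
  have hpp : Prime (p : ℤ) := Nat.prime_iff_prime_int.1 hp
  have hu : ¬ (p : ℤ) ∣ D' * (a * a) := by
    have h1 : D' * (a * d) = 1 + p * (q + D' * k) := by
      rw [hk]; linear_combination hq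
    have h2 : (D' * (a * a)) * (D' * (d * d)) = 1 + p * (2 * (q + D' * k) +
        p * (q + D' * k) * (q + D' * k)) := by
      linear_combination (D' * (a * d) + 1 + p * (q + D' * k)) * h1
    exact not_dvd_of_unit p hp h2
  have key : ∀ i ∈ Finset.range p,
      EqC (act a b c d (act 1 0 (3 * (i : ℤ) * (p : ℤ) ^ (m + 1)) 1 G))
      (act 1 0 (3 * ((rs p (D' * (a * a) * (i : ℤ) + D' * (a * c0 * h)) : ℕ) : ℤ) *
        (p : ℤ) ^ (m + 1)) 1 G) := by
    intro i _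
    obtain ⟨t, ht⟩ := rs_spec p hp (D' * (a * a) * (i : ℤ) + D' * (a * c0 * h))
    set j : ℤ := ((rs p (D' * (a * a) * (i : ℤ) + D' * (a * c0 * h)) : ℕ) : ℤ) with hj
    set M : ℤ := (p : ℤ) ^ (m + 1) with hM
    have hMp : M = p * (p : ℤ) ^ m := by rw [hM, pow_succ]; ring
    set w : ℤ := 3 * t * d - κ * c0 - (q + D' * k) * (3 * a * i + (p * κ + 1) * c0) with hw
    have hg : EqC (act (a - 3 * j * M * b) b
        (3 * i * M * a + c - 3 * j * M * (3 * i * M * b + d)) (3 * i * M * b + d) G) G := by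
      refine hG.2 _ _ _ _ (hty_mod hty ?_ ⟨-(j * M * b), by ring⟩
          ⟨i * M * a - j * M * (3 * i * M * b + d), by ring⟩ ⟨i * M * b, by ring⟩) (by simp) ?_
      · ring
      · have e2 : 3 * (i : ℤ) * a + c0 - 3 * j * d = p * w := by
          rw [hw]
          linear_combination 3 * d * ht - D' * (3 * a * i + 3 * h * c0) * hk -
            (3 * a * i + 3 * h * c0) * hq - c0 * (1 + p * q + D' * p * k) * hh
        refine ⟨w - 9 * i * j * (p : ℤ) ^ m * b, ?_⟩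
        have e3 : (p : ℤ) ^ (m + 2) = M * p := by rw [hM]; ring
        rw [e3, hc0]
        have : 3 * (i : ℤ) * M * a + M * c0 - 3 * j * M * (3 * i * M * b + d) =
            M * (3 * (i : ℤ) * a + c0 - 3 * j * d) - 9 * i * j * M * M * b := by ring
        rw [this, e2]
        nth_rewrite 3 [hMp]
        ring
    have h2 := hg.act (a := 1) (b := 0) (c := 3 * j * M) (d := 1) (by norm_num)
    rw [act_act] at h2 ⊢
    convert h2 using 2 <;> ring
  refine (eqc_sum _ _ _ key).trans ?_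
  rw [reidx p hp (D' * (a * a)) (D' * (a * c0 * h)) hu
    (fun j => act 1 0 (3 * (j : ℤ) * (p : ℤ) ^ (m + 1)) 1 G)]
  exact EqC.refl _

/-- Part (a). -/
private lemma partA (p : ℕ) (hp : p.Prime) (h2p : p ≠ 3) (n : ℕ) (G : ℤ → ℤ → ℂ) (hn : 2 ≤ n)
    (hG : SymK p 0 n G) : SymK p 0 n (tSK p G) := by
  obtain ⟨m, rfl⟩ : ∃ m, n = m + 2 := ⟨n - 2, by omega⟩
  have hp0 : (p : ℤ) ≠ 0 := by exact_mod_cast hp.ne_zero
  have hdp : ∀ i : ℕ, (p : ℤ) * p - (i : ℤ) * 0 ≠ 0 := by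
    intro i
    rw [mul_zero, sub_zero]
    exact mul_ne_zero hp0 hp0
  refine ⟨homog_sum _ _ (fun i _ => hG.1.act (hdp i)), ?_⟩
  intro a b c d hty _ hc
  obtain ⟨D', q, hq⟩ := hty_inv p hp h2p hty
  have hce0 := hty_even hty
  obtain ⟨c1, hc1⟩ := hc
  obtain ⟨c2, hc2⟩ := even_cof p hp h2p (m + 2) hc1 hce0
  have hce : c = p * p * ((p : ℤ) ^ m * c1) := by rw [hc1]; ring
  set e : ℤ := (p : ℤ) ^ m * c1 with he
  have hee : e = 3 * ((p : ℤ) ^ m * c2) := by rw [he, hc2]; ring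
  unfold tSK
  rw [act_sum]
  have hpp : Prime (p : ℤ) := Nat.prime_iff_prime_int.1 hp
  have hu : ¬ (p : ℤ) ∣ D' * (d * d) := by
    have h1 : D' * (a * d) = 1 + p * (q + D' * (b * p * e)) := by
      rw [hce] at hq; linear_combination hq
    have h2 : (D' * (d * d)) * (D' * (a * a)) = 1 + p * (2 * (q + D' * (b * p * e)) +
        p * (q + D' * (b * p * e)) * (q + D' * (b * p * e))) := by
      linear_combination (D' * (a * d) + 1 + p * (q + D' * (b * p * e))) * h1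
    exact not_dvd_of_unit p hp h2
  have key : ∀ i ∈ Finset.range p, EqC (act a b c d (act p (i : ℤ) 0 p G))
      (act p ((rs p (D' * (d * d) * (i : ℤ) + 0) : ℕ) : ℤ) 0 p G) := by
    intro i _
    obtain ⟨t, ht⟩ := rs_spec p hp (D' * (d * d) * (i : ℤ) + 0)
    set j : ℤ := ((rs p (D' * (d * d) * (i : ℤ) + 0) : ℕ) : ℤ) with hj
    -- `i d - j a = p s`
    have hs : (i : ℤ) * d - j * a = p * (t * a - q * d * i - D' * d * i * (b * p * e)) := by
      have h1 : (a * d - b * (p * p * e)) * D' = 1 + p * q := by rw [← hce]; exact hq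
      linear_combination a * ht - (i : ℤ) * d * h1
    set s : ℤ := t * a - q * d * i - D' * d * i * (b * p * e) with hsd
    have hg : EqC (act (a + i * p * e) (b + s - i * j * e) (p * p * e)
        (d - j * p * e) G) G := by
      refine hG.2 _ _ _ _ (hty_mod hty ?_ ⟨i * p * ((p : ℤ) ^ m * c2), by rw [hee]; ring⟩
          ⟨0, by rw [hce]; ring⟩ ⟨-(j * p * ((p : ℤ) ^ m * c2)), by rw [hee]; ring⟩)
          (by simp) ?_
      · rw [hce]
        linear_combination p * e * hs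
      · refine ⟨c1, ?_⟩
        rw [he]; ring
    have h2 := hg.act (a := p) (b := j) (c := 0) (d := p) (by
      rw [mul_zero, sub_zero]; exact mul_ne_zero hp0 hp0)
    rw [act_act] at h2 ⊢
    convert h2 using 2
    · rw [hce]; ring
    · linear_combination hs
    · rw [hce]; ring
    · ring
  refine (eqc_sum _ _ _ key).trans ?_
  rw [reidx p hp (D' * (d * d)) 0 hu (fun j => act p (j : ℤ) 0 p G)]
  exact EqC.refl _

/-- Part (d). -/
private lemma partD (p : ℕ) (hp : p.Prime) (h2p : p ≠ 3) (n : ℕ) (G : ℤ → ℤ → ℂ)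
    (hG : SymK p 0 n G) : SymK p 0 n (act 0 (-1) (3 * (p : ℤ) ^ n) 0 G) := by
  have hp0 : (p : ℤ) ≠ 0 := by exact_mod_cast hp.ne_zero
  have hN : (3 : ℤ) * (p : ℤ) ^ n ≠ 0 := mul_ne_zero three_ne_zero (pow_ne_zero _ hp0)
  refine SymK.act hG (by simpa using hN) ?_
  intro a b c d hty _ hc
  obtain ⟨c0, hc0⟩ := hc
  obtain ⟨c1, hc1⟩ := even_cof p hp h2p n hc0 (hty_even hty)
  have hcN : c = 3 * (p : ℤ) ^ n * c1 := by rw [hc0, hc1]; ring
  refine ⟨d, -c1, -(3 * (p : ℤ) ^ n * b), a, ?_, by simp, ⟨-(3 * b), by ring⟩, ?_, ?_, ?_, ?_⟩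
  · rcases hty with ⟨h1, h2⟩ | ⟨h1, h2, h3, h4⟩
    · refine Or.inl ⟨?_, ⟨-((p : ℤ) ^ n * b), by ring⟩⟩
      rw [hcN] at h1; linear_combination h1
    · refine Or.inr ⟨?_, h4, ⟨-((p : ℤ) ^ n * b), by ring⟩, h2⟩
      rw [hcN] at h1; linear_combination h1
  · rw [hcN]; ring
  · ring
  · ring
  · ring

/-- Part (e). -/
private lemma partE (p : ℕ) (n : ℕ) (G : ℤ → ℤ → ℂ)
    (hG : SymK p 0 n G) : SymK p 0 n (act (-1) 0 0 1 G) := by
  refine SymK.act hG (by norm_num) ?_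
  intro a b c d hty _ hc
  obtain ⟨c0, hc0⟩ := hc
  refine ⟨a, -b, -c, d, ?_, by simp, ⟨-c0, by rw [hc0]; ring⟩, ?_, ?_, ?_, ?_⟩
  · obtain ⟨y, hy⟩ := hty_even hty
    exact hty_mod hty (by ring) ⟨0, by ring⟩ ⟨-(2 * y), by rw [hy]; ring⟩ ⟨0, by ring⟩
  · ring
  · ring
  · ring
  · ring

/-- Part (c). -/
private lemma partC (p : ℕ) (hp : p.Prime) (h2p : p ≠ 3) (n : ℕ) (G : ℤ → ℤ → ℂ) (hn : 2 ≤ n)
    (hG : SymK p 0 n G) :
    SymK p 0 (n - 1) (act 0 (-1) (3 * (p : ℤ) ^ n) 0 (tSK p G)) := by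
  have hp0 : (p : ℤ) ≠ 0 := by exact_mod_cast hp.ne_zero
  have hN : (3 : ℤ) * (p : ℤ) ^ n ≠ 0 := mul_ne_zero three_ne_zero (pow_ne_zero _ hp0)
  have hW := partD p hp h2p n G hG
  have hS := partB p hp h2p n _ hn hW
  have hMN : (p : ℤ) ^ n = p * (p : ℤ) ^ (n - 1) := by
    obtain ⟨m, rfl⟩ : ∃ m, n = m + 1 := ⟨n - 1, by omega⟩
    rw [Nat.add_sub_cancel, pow_succ]; ring
  have hdp : ∀ i : ℕ, (p : ℤ) * p - (i : ℤ) * 0 ≠ 0 := by
    intro i
    rw [mul_zero, sub_zero]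
    exact mul_ne_zero hp0 hp0
  have hhom : Homog (act 0 (-1) (3 * (p : ℤ) ^ n) 0 (tSK p G)) := by
    refine Homog.act ?_ (by simpa using hN)
    exact homog_sum _ _ (fun i _ => hG.1.act (hdp i))
  have hpp : Prime (p : ℤ) := Nat.prime_iff_prime_int.1 hp
  have hu : ¬ (p : ℤ) ∣ (-1 : ℤ) := fun h => hpp.not_unit (isUnit_of_dvd_one ((dvd_neg).1 h))
  have hXY : EqC (act 0 (-1) (3 * (p : ℤ) ^ n) 0 (tSK p G))
      (sSK p n (act 0 (-1) (3 * (p : ℤ) ^ n) 0 G)) := by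
    unfold tSK sSK
    rw [act_sum]
    have key : ∀ i ∈ Finset.range p,
        EqC (act 0 (-1) (3 * (p : ℤ) ^ n) 0 (act p (i : ℤ) 0 p G))
        (act 1 0 (3 * ((rs p ((-1) * (i : ℤ) + 0) : ℕ) : ℤ) * (p : ℤ) ^ (n - 1)) 1
          (act 0 (-1) (3 * (p : ℤ) ^ n) 0 G)) := by
      intro i _
      obtain ⟨t, ht⟩ := rs_spec p hp ((-1) * (i : ℤ) + 0)
      set j : ℤ := ((rs p ((-1) * (i : ℤ) + 0) : ℕ) : ℤ) with hj
      set M : ℤ := (p : ℤ) ^ (n - 1) with hM
      -- scaling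
      have h1 : EqC (act (p * (3 * i * M)) (p * (-1)) (p * (3 * (p : ℤ) ^ n)) (p * 0) G)
          (act (3 * i * M) (-1) (3 * (p : ℤ) ^ n) 0 G) :=
        hG.1.scale (p : ℤ) hp0 (by simpa using hN)
      have h2 : act 0 (-1) (3 * (p : ℤ) ^ n) 0 (act p (i : ℤ) 0 p G) =
          act (p * (3 * i * M)) (p * (-1)) (p * (3 * (p : ℤ) ^ n)) (p * 0) G := by
        rw [act_act]
        congr 1
        · rw [hMN]; ring
        · ring
        · ring
      have h3 : act (3 * i * M) (-1) (3 * (p : ℤ) ^ n) 0 G =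
          act 1 0 (-(3 * i * M)) 1 (act 0 (-1) (3 * (p : ℤ) ^ n) 0 G) := by
        rw [act_act]
        congr 1 <;> ring
      have h4 : EqC (act 1 0 (-(3 * i * M) - 3 * j * M) 1 (act 0 (-1) (3 * (p : ℤ) ^ n) 0 G))
          (act 0 (-1) (3 * (p : ℤ) ^ n) 0 G) := by
        refine hW.2 1 0 (-(3 * i * M) - 3 * j * M) 1
          (Or.inl ⟨by ring, ⟨-(i * M) - j * M, by ring⟩⟩) (by simp) ⟨3 * t, ?_⟩
        rw [hMN]
        linear_combination 3 * M * ht
      have h5 := h4.act (a := 1) (b := 0) (c := 3 * j * M) (d := 1) (by norm_num)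
      rw [act_act] at h5
      rw [h2]
      refine h1.trans ?_
      rw [h3]
      convert h5 using 2
      all_goals ring
    refine (eqc_sum _ _ _ key).trans ?_
    rw [reidx p hp (-1) 0 hu
      (fun j => act 1 0 (3 * (j : ℤ) * (p : ℤ) ^ (n - 1)) 1
        (act 0 (-1) (3 * (p : ℤ) ^ n) 0 G))]
    exact EqC.refl _
  refine ⟨hhom, ?_⟩
  intro a b c d hty hb hc
  have h1 := hXY.act (a := a) (b := b) (c := c) (d := d) hty.det_ne
  exact (h1.trans (hS.2 a b c d hty hb hc)).trans hXY.symm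

theorem hAvg : SKAvg := by
  intro p hp h2p n G hn hG
  exact ⟨partA p hp h2p n G hn hG, partB p hp h2p n G hn hG, partC p hp h2p n G hn hG,
    partD p hp h2p n G hG, partE p n G hG⟩

end Pool.Agent.Helper85.TKC
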